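import Pool.Agent.LeoK.StrStmts
import Pool.Agent.Helper85_Leo.Units

/-! ADM: a congruence condition that implies the local condition at 3. -/

set_option autoImplicit false

open NumberField IsDedekindDomain WithZero Module
open Pool.Agent.Helper85_Leo Pool.Agent.Leo3

namespace Pool.Agent.LeoK.H11

open Pool.Agent.LeoK

variable {k : Type} [Field k] [NumberField k]

theorem norm_three : ‖(3 : Om)‖ < 1 := by
  have h1 : ‖((3 : ℚ_[3]))‖ < 1 := by
    have := Padic.norm_p_lt_one (p := 3)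
    exact_mod_cast this
  have h2 : ‖algebraMap ℚ_[3] Om 3‖ = ‖(3 : ℚ_[3])‖ := norm_algebraMap' Om (3 : ℚ_[3])
  rw [map_ofNat] at h2
  rw [h2]
  exact h1

/-- the prime of an embedding into `Om` -/
noncomputable def pv (φ : k →+* Om) : HeightOneSpectrum (𝓞 k) where
  asIdeal :=
    { carrier := {z | ‖φ (z : k)‖ < 1}
      zero_mem' := by simp
      add_mem' := by
        intro a b ha hb
        show ‖φ ((a + b : 𝓞 k) : k)‖ < 1
        have h := IsUltrametricDist.norm_add_le_max (φ (a : k)) (φ (b : k))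
        rw [← map_add] at h
        exact lt_of_le_of_lt (by simpa using h) (max_lt ha hb)
      smul_mem' := by
        intro c a ha
        show ‖φ ((c * a : 𝓞 k) : k)‖ < 1
        have h : φ ((c * a : 𝓞 k) : k) = φ (c : k) * φ (a : k) := by
          rw [← map_mul]
          rfl
        rw [h, norm_mul]
        exact lt_of_le_of_lt (mul_le_of_le_one_left (norm_nonneg _)
          (norm_embedding_le_one φ c)) ha }
  isPrime := by
    refine Ideal.isPrime_iff.2 ⟨?_, ?_⟩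
    · rw [Ne, Ideal.eq_top_iff_one]
      intro h
      have h1 : ‖φ ((1 : 𝓞 k) : k)‖ < 1 := h
      simp at h1
    · intro a b hab
      have h1 : ‖φ ((a * b : 𝓞 k) : k)‖ < 1 := hab
      have h : φ ((a * b : 𝓞 k) : k) = φ (a : k) * φ (b : k) := by
        rw [← map_mul]
        rfl
      rw [h, norm_mul] at h1
      by_contra hc
      rw [not_or] at hc
      have ha : 1 ≤ ‖φ (a : k)‖ := not_lt.1 hc.1
      have hb : 1 ≤ ‖φ (b : k)‖ := not_lt.1 hc.2
      have : 1 ≤ ‖φ (a : k)‖ * ‖φ (b : k)‖ := one_le_mul_of_one_le_of_one_le ha hb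
      linarith
  ne_bot := by
    intro h
    have h1 : (3 : 𝓞 k) ∈ (⊥ : Ideal (𝓞 k)) := by
      rw [← h]
      show ‖φ ((3 : 𝓞 k) : k)‖ < 1
      have h3 : ((3 : 𝓞 k) : k) = 3 := map_ofNat (algebraMap (𝓞 k) k) 3
      rw [h3, map_ofNat]
      exact norm_three
    rw [Ideal.mem_bot] at h1
    have h3 : (3 : 𝓞 k) ≠ 0 := by norm_num
    exact h3 h1

theorem mem_pv (φ : k →+* Om) (z : 𝓞 k) : z ∈ (pv φ).asIdeal ↔ ‖φ (z : k)‖ < 1 := Iff.rfl

theorem three_mem (φ : k →+* Om) : (3 : 𝓞 k) ∈ (pv φ).asIdeal := by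
  rw [mem_pv]
  have h3 : ((3 : 𝓞 k) : k) = 3 := map_ofNat (algebraMap (𝓞 k) k) 3
  rw [h3, map_ofNat]
  exact norm_three

theorem norm_eq_one (φ : k →+* Om) {z : 𝓞 k} (hz : z ∉ (pv φ).asIdeal) : ‖φ (z : k)‖ = 1 :=
  le_antisymm (norm_embedding_le_one φ z) (not_lt.1 hz)

/-- elements of norm at most one are fractions with denominator outside the prime -/
theorem exists_frac (φ : k →+* Om) (x : k) (hx : ‖φ x‖ ≤ 1) :
    ∃ a b : 𝓞 k, b ∉ (pv φ).asIdeal ∧ x * b = a := by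
  obtain ⟨n, d, h | h⟩ := (pv φ).exists_primeCompl_mul_eq_or_mul_eq (K := k) x
  · exact ⟨n, d, d.2, h⟩
  · refine ⟨d, n, fun hn => ?_, h⟩
    have h1 : ‖φ (n : k)‖ < 1 := hn
    have h2 : ‖φ ((d : 𝓞 k) : k)‖ = 1 := norm_eq_one φ d.2
    have h3 : φ x * φ (n : k) = φ ((d : 𝓞 k) : k) := by
      rw [← map_mul]
      exact congrArg φ h
    have h4 := congrArg norm h3
    rw [norm_mul, h2] at h4
    have : ‖φ x‖ * ‖φ (n : k)‖ < 1 :=
      lt_of_le_of_lt (mul_le_of_le_one_left (norm_nonneg _) hx) h1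
    linarith

theorem adm (hapx : ApxStmt) : AdmStmt := by
  intro k _ _ m hm φ y hy hym
  have h0 := hm (pv φ) (three_mem φ)
  have hm1 : ‖φ (m : k)‖ = 1 := norm_eq_one φ (by simpa using h0 0)
  have hy1 : ‖y‖ = 1 := by
    have h := congrArg norm hym
    rw [norm_pow, norm_neg, hm1] at h
    exact (pow_eq_one_iff_of_nonneg (norm_nonneg _) two_ne_zero).1 h
  obtain ⟨x, hx⟩ := hapx k φ y hy 1
  have hx' : ‖φ x - y‖ < 1 := lt_of_le_of_lt hx (by norm_num)
  have hxy : ‖φ x‖ ≤ 1 := by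
    have h := IsUltrametricDist.norm_add_le_max (φ x - y) y
    rw [sub_add_cancel] at h
    exact h.trans (max_le hx'.le hy1.le)
  have hsq : ‖φ (x ^ 2 + m)‖ < 1 := by
    have h : φ (x ^ 2 + m) = (φ x - y) * (φ x + y) := by
      rw [map_add, map_pow]
      linear_combination hym
    rw [h, norm_mul]
    have h2 : ‖φ x + y‖ ≤ 1 :=
      (IsUltrametricDist.norm_add_le_max (φ x) y).trans (max_le hxy hy1.le)
    exact lt_of_le_of_lt (mul_le_of_le_one_right (norm_nonneg _) h2) hx'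
  obtain ⟨a, b, hb, hab⟩ := exists_frac φ x hxy
  have hmax : (pv φ).asIdeal.IsMaximal := (pv φ).isPrime.isMaximal (pv φ).ne_bot
  obtain ⟨b', hb'⟩ : ∃ b' : 𝓞 k, b' * b - 1 ∈ (pv φ).asIdeal := by
    obtain ⟨b', i, hi, h⟩ := hmax.exists_inv hb
    refine ⟨b', ?_⟩
    have : b' * b - 1 = -i := by linear_combination h
    rw [this]
    exact neg_mem hi
  have h1 : a ^ 2 + b ^ 2 * m ∈ (pv φ).asIdeal := by
    rw [mem_pv]
    have hab2 : algebraMap (𝓞 k) k a = x * algebraMap (𝓞 k) k b := hab.symm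
    have h : φ ((a ^ 2 + b ^ 2 * m : 𝓞 k) : k) = φ (b : k) ^ 2 * φ (x ^ 2 + m) := by
      rw [← map_pow, ← map_mul]
      congr 1
      show algebraMap (𝓞 k) k (a ^ 2 + b ^ 2 * m) =
        algebraMap (𝓞 k) k b ^ 2 * (x ^ 2 + algebraMap (𝓞 k) k m)
      rw [map_add, map_mul, map_pow, map_pow, hab2]
      ring
    rw [h, norm_mul, norm_pow, norm_eq_one φ hb, one_pow, one_mul]
    exact hsq
  apply h0 (a * b')
  have h2 : (a * b') ^ 2 + m = b' ^ 2 * (a ^ 2 + b ^ 2 * m) -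
      (b' * b - 1) * ((b' * b + 1) * m) := by ring
  rw [h2]
  exact sub_mem (Ideal.mul_mem_left _ _ h1) (Ideal.mul_mem_right _ _ hb')

end Pool.Agent.LeoK.H11
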