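import Pool.Agent.LeoK.UpStmts

/-! DEN: residue classes of forms with the local conditions at the primes of a finite set. -/

set_option autoImplicit false

open NumberField IsDedekindDomain Module

namespace Pool.Agent.LeoK.H11

open Pool.Agent.LeoK

section fib

variable {A B : Type} [CommRing A] [CommRing B] [Finite A] [Finite B]

/-- the preimage of a set of quadruples under a surjective ring homomorphism -/
theorem ncard_preimage (f : A →+* B) (hf : Function.Surjective f) (q : ℕ) (hA : Nat.card A = q ^ 2)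
    (hB : Nat.card B = q) (W : Set (Q4 B)) :
    {w : Q4 A | (fun i => f (w i)) ∈ W}.ncard ≤ q ^ 4 * W.ncard := by
  classical
  haveI := Fintype.ofFinite A
  haveI := Fintype.ofFinite B
  have hq : 0 < q := by
    rw [← hB]
    exact Nat.card_pos
  let F : Q4 A →+ Q4 B :=
    { toFun := fun w i => f (w i)
      map_zero' := by
        funext i
        exact map_zero f
      map_add' := fun x y => by
        funext i
        exact map_add f _ _ }
  have hF : Function.Surjective F := by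
    intro y
    choose x hx using fun i => hf (y i)
    exact ⟨x, funext hx⟩
  have hker : Nat.card F.ker = q ^ 4 := by
    have h1 : Nat.card (Q4 A) = Nat.card (Q4 A ⧸ F.ker) * Nat.card F.ker :=
      AddSubgroup.card_eq_card_quotient_mul_card_addSubgroup _
    have h2 : Nat.card (Q4 A ⧸ F.ker) = Nat.card (Q4 B) :=
      Nat.card_congr (QuotientAddGroup.quotientKerEquivOfSurjective F hF).toEquiv
    rw [h2, Nat.card_pi, Nat.card_pi] at h1
    simp only [Finset.prod_const, Finset.card_univ, Fintype.card_fin, hA, hB] at h1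
    have h3 : q ^ 4 * q ^ 4 = q ^ 4 * Nat.card F.ker := by
      rw [← h1]
      ring
    exact (Nat.eq_of_mul_eq_mul_left (by positivity) h3).symm
  have hcard : (Set.toFinset (F.ker : Set (Q4 A))).card = q ^ 4 := by
    rw [← Set.ncard_eq_toFinset_card', ← hker]
    rfl
  rw [Set.ncard_eq_toFinset_card', Set.ncard_eq_toFinset_card']
  refine Finset.card_le_mul_card_image_of_maps_to (f := F) (fun w hw => ?_) _ (fun b hb => ?_)
  · rw [Set.mem_toFinset] at hw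
    rw [Set.mem_toFinset]
    exact hw
  · obtain ⟨x, rfl⟩ := hF b
    rw [← hcard]
    refine Finset.card_le_card_of_injOn (fun a => a - x) (fun a ha => ?_) (fun a _ b _ hab => ?_)
    · have h : F a = F x := (Finset.mem_filter.1 ha).2
      rw [Finset.mem_coe, Set.mem_toFinset]
      show F (a - x) = 0
      rw [map_sub, h, sub_self]
    · exact sub_left_injective hab

end fib

variable {k : Type} [Field k] [NumberField k]

theorem sq_ne_bot (p : HeightOneSpectrum (𝓞 k)) : p.asIdeal ^ 2 ≠ ⊥ :=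
  pow_ne_zero 2 p.ne_bot

theorem card_quot (I : Ideal (𝓞 k)) : Nat.card (𝓞 k ⧸ I) = Ideal.absNorm I := by
  rw [Ideal.absNorm_apply, Submodule.cardQuot_apply]

theorem qM_map {A B : Type} [CommRing A] [CommRing B] (f : A →+* B) (v : Q4 A) :
    qM (fun i => f (v i)) = f (qM v) := by
  simp only [qM, fM, fP, fQ, fR, map_sub, map_mul, map_pow, map_ofNat]

/-- the classes at one prime -/
def Sp (p : HeightOneSpectrum (𝓞 k)) : Set (Q4 (𝓞 k ⧸ p.asIdeal ^ 2)) :=
  modQ (p.asIdeal ^ 2) '' {v | LocOK p (qM v)}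

/-- the preimage at one prime -/
theorem pre (p : HeightOneSpectrum (𝓞 k)) (W : Set (Q4 (𝓞 k ⧸ p.asIdeal)))
    (hW : ∀ v : Q4 (𝓞 k), LocOK p (qM v) → (fun i => Ideal.Quotient.mk p.asIdeal (v i)) ∈ W)
    (c : ℝ) (hc : (W.ncard : ℝ) ≤ np p ^ 4 * c) : ((Sp p).ncard : ℝ) ≤ np p ^ 8 * c := by
  haveI : Finite (𝓞 k ⧸ p.asIdeal ^ 2) := Ideal.finiteQuotientOfFreeOfNeBot _ (sq_ne_bot p)
  haveI : Finite (𝓞 k ⧸ p.asIdeal) := Ideal.finiteQuotientOfFreeOfNeBot _ p.ne_bot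
  have hle : p.asIdeal ^ 2 ≤ p.asIdeal := Ideal.pow_le_self two_ne_zero
  have h1 : Sp p ⊆ {w | (fun i => Ideal.Quotient.factor hle (w i)) ∈ W} := by
    rintro w ⟨v, hv, rfl⟩
    exact hW v hv
  have h2 := Set.ncard_le_ncard h1 (Set.toFinite _)
  have h3 := ncard_preimage (Ideal.Quotient.factor hle) (Ideal.Quotient.factor_surjective hle)
    (Ideal.absNorm p.asIdeal) (by rw [card_quot, map_pow]) (card_quot _) W
  have h4 : ((Sp p).ncard : ℝ) ≤ np p ^ 4 * (W.ncard : ℝ) := by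
    have := h2.trans h3
    unfold np
    exact_mod_cast this
  calc ((Sp p).ncard : ℝ) ≤ np p ^ 4 * (W.ncard : ℝ) := h4
    _ ≤ np p ^ 4 * (np p ^ 4 * c) := mul_le_mul_of_nonneg_left hc (by unfold np; positivity)
    _ = np p ^ 8 * c := by ring

theorem prime_bound (h5 : Ld5Stmt) (h2 : Ld2Stmt) (h3 : Ld3Stmt) (p : HeightOneSpectrum (𝓞 k)) :
    ((Sp p).ncard : ℝ) ≤ np p ^ 8 * df p := by
  classical
  haveI : Finite (𝓞 k ⧸ p.asIdeal) := Ideal.finiteQuotientOfFreeOfNeBot _ p.ne_bot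
  haveI hmax : p.asIdeal.IsMaximal := p.isPrime.isMaximal p.ne_bot
  by_cases c2 : (2 : 𝓞 k) ∈ p.asIdeal
  · letI : Field (𝓞 k ⧸ p.asIdeal) := Ideal.Quotient.field p.asIdeal
    letI : Fintype (𝓞 k ⧸ p.asIdeal) := Fintype.ofFinite _
    have hcard : ((Fintype.card (𝓞 k ⧸ p.asIdeal) : ℕ) : ℝ) = np p := by
      rw [← Nat.card_eq_fintype_card, card_quot]
      rfl
    have h20 : (2 : 𝓞 k ⧸ p.asIdeal) = 0 := by
      have := Ideal.Quotient.eq_zero_iff_mem.2 c2
      rwa [map_ofNat] at this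
    have h := h2 (𝓞 k ⧸ p.asIdeal) h20
    rw [hcard] at h
    refine pre p {w | qM w ≠ 0} (fun v hv => ?_) _ ?_
    · show qM _ ≠ 0
      rw [qM_map, Ne, Ideal.Quotient.eq_zero_iff_mem]
      exact hv.two c2
    · have h' : (({w | qM w ≠ 0} : Set (Q4 (𝓞 k ⧸ p.asIdeal))).ncard : ℝ) =
          (Nat.card {v : Q4 (𝓞 k ⧸ p.asIdeal) // qM v ≠ 0} : ℝ) := rfl
      rw [h', h, df, dm, if_pos c2]
      apply le_of_eq
      ring
  · by_cases c3 : (3 : 𝓞 k) ∈ p.asIdeal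
    · letI : Field (𝓞 k ⧸ p.asIdeal) := Ideal.Quotient.field p.asIdeal
      letI : Fintype (𝓞 k ⧸ p.asIdeal) := Fintype.ofFinite _
      have hcard : ((Fintype.card (𝓞 k ⧸ p.asIdeal) : ℕ) : ℝ) = np p := by
        rw [← Nat.card_eq_fintype_card, card_quot]
        rfl
      have h30 : (3 : 𝓞 k ⧸ p.asIdeal) = 0 := by
        have := Ideal.Quotient.eq_zero_iff_mem.2 c3
        rwa [map_ofNat] at this
      have h := h3 (𝓞 k ⧸ p.asIdeal) h30
      rw [hcard] at h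
      refine pre p {w | ∀ x, x ^ 2 + qM w ≠ 0} (fun v hv x => ?_) _ ?_
      · obtain ⟨y, rfl⟩ := Ideal.Quotient.mk_surjective x
        rw [qM_map, ← map_pow, ← map_add, Ne, Ideal.Quotient.eq_zero_iff_mem]
        exact hv.three c3 y
      · have h' : (({w | ∀ x, x ^ 2 + qM w ≠ 0} : Set (Q4 (𝓞 k ⧸ p.asIdeal))).ncard : ℝ) =
            (Nat.card {v : Q4 (𝓞 k ⧸ p.asIdeal) // ∀ x, x ^ 2 + qM v ≠ 0} : ℝ) := rfl
        rw [h', h, df, dm, if_neg c2, if_pos c3]
        apply le_of_eq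
        ring
    · have c6 : (6 : 𝓞 k) ∉ p.asIdeal := by
        intro h
        have : (6 : 𝓞 k) = 2 * 3 := by norm_num
        rw [this] at h
        rcases p.isPrime.mem_or_mem h with h | h
        · exact c2 h
        · exact c3 h
      have h := h5 k p c6
      haveI : Finite (𝓞 k ⧸ p.asIdeal ^ 2) := Ideal.finiteQuotientOfFreeOfNeBot _ (sq_ne_bot p)
      have h1 : Sp p ⊆ {w | qM w ≠ 0} := by
        rintro w ⟨v, hv, rfl⟩
        show qM (fun i => Ideal.Quotient.mk (p.asIdeal ^ 2) (v i)) ≠ 0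
        rw [qM_map, Ne, Ideal.Quotient.eq_zero_iff_mem]
        exact hv.sqf
      have h2 : ((Sp p).ncard : ℝ) ≤
          (({w | qM w ≠ 0} : Set (Q4 (𝓞 k ⧸ p.asIdeal ^ 2))).ncard : ℝ) := by
        exact_mod_cast Set.ncard_le_ncard h1 (Set.toFinite _)
      refine h2.trans ?_
      have h' : (({w | qM w ≠ 0} : Set (Q4 (𝓞 k ⧸ p.asIdeal ^ 2))).ncard : ℝ) =
          (Nat.card {v : Q4 (𝓞 k ⧸ p.asIdeal ^ 2) // qM v ≠ 0} : ℝ) := rfl
      rw [h', h, df, dm, if_neg c2, if_neg c3]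
      apply le_of_eq
      ring

theorem coprime_insert {p : HeightOneSpectrum (𝓞 k)} {Q : Finset (HeightOneSpectrum (𝓞 k))}
    (hp : p ∉ Q) : IsCoprime (p.asIdeal ^ 2) (∏ q ∈ Q, q.asIdeal ^ 2) := by
  refine IsCoprime.prod_right fun q hq => IsCoprime.pow ?_
  haveI : p.asIdeal.IsMaximal := p.isPrime.isMaximal p.ne_bot
  haveI : q.asIdeal.IsMaximal := q.isPrime.isMaximal q.ne_bot
  refine Ideal.isCoprime_of_isMaximal fun h => hp ?_
  have : p = q := HeightOneSpectrum.ext h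
  rwa [this]

theorem prod_ne_bot (Q : Finset (HeightOneSpectrum (𝓞 k))) : (∏ q ∈ Q, q.asIdeal ^ 2) ≠ ⊥ :=
  Finset.prod_ne_zero_iff.2 fun q _ => sq_ne_bot q

/-- the classes modulo the product -/
def SQ (Q : Finset (HeightOneSpectrum (𝓞 k))) : Set (Q4 (𝓞 k ⧸ ∏ p ∈ Q, p.asIdeal ^ 2)) :=
  modQ (∏ p ∈ Q, p.asIdeal ^ 2) '' {v | ∀ p ∈ Q, LocOK p (qM v)}

theorem df_nonneg (p : HeightOneSpectrum (𝓞 k)) : 0 ≤ df p := by
  have h1 : 1 ≤ np p := by
    unfold np
    have : Ideal.absNorm p.asIdeal ≠ 0 := by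
      rw [Ne, Ideal.absNorm_eq_zero_iff]
      exact p.ne_bot
    exact_mod_cast Nat.one_le_iff_ne_zero.2 this
  have h2 : 1 / np p ≤ 1 := by
    rw [div_le_one (by linarith)]
    exact h1
  have h3 : 1 / np p ^ 2 ≤ 1 := by
    rw [div_le_one (by positivity)]
    nlinarith
  unfold df dm
  apply mul_nonneg (by linarith)
  split_ifs <;> linarith

theorem SQ_bound (h5 : Ld5Stmt) (h2 : Ld2Stmt) (h3 : Ld3Stmt)
    (Q : Finset (HeightOneSpectrum (𝓞 k))) :
    ((SQ Q).ncard : ℝ) ≤ ∏ p ∈ Q, (np p ^ 8 * df p) := by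
  classical
  induction Q using Finset.induction_on with
  | empty =>
    have hsub : Subsingleton (Q4 (𝓞 k ⧸ ∏ p ∈ (∅ : Finset (HeightOneSpectrum (𝓞 k))),
        p.asIdeal ^ 2)) := by
      have : Subsingleton (𝓞 k ⧸ ∏ p ∈ (∅ : Finset (HeightOneSpectrum (𝓞 k))),
          p.asIdeal ^ 2) := by
        rw [Finset.prod_empty, Ideal.one_eq_top]
        exact Ideal.Quotient.subsingleton_iff.2 rfl
      exact Pi.instSubsingleton
    have := Set.ncard_le_one_of_subsingleton (SQ (k := k) ∅)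
    calc ((SQ (k := k) ∅).ncard : ℝ) ≤ 1 := by exact_mod_cast this
      _ = _ := Finset.prod_empty.symm
  | insert p Q hp ih =>
    haveI : Finite (𝓞 k ⧸ p.asIdeal ^ 2) := Ideal.finiteQuotientOfFreeOfNeBot _ (sq_ne_bot p)
    haveI : Finite (𝓞 k ⧸ ∏ q ∈ Q, q.asIdeal ^ 2) :=
      Ideal.finiteQuotientOfFreeOfNeBot _ (prod_ne_bot Q)
    have hN : ∏ q ∈ insert p Q, q.asIdeal ^ 2 =
        p.asIdeal ^ 2 ⊓ ∏ q ∈ Q, q.asIdeal ^ 2 := by
      rw [Finset.prod_insert hp, Ideal.inf_eq_mul_of_isCoprime (coprime_insert hp)]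
    have l1 : ∏ q ∈ insert p Q, q.asIdeal ^ 2 ≤ p.asIdeal ^ 2 := hN.le.trans inf_le_left
    have l2 : ∏ q ∈ insert p Q, q.asIdeal ^ 2 ≤ ∏ q ∈ Q, q.asIdeal ^ 2 :=
      hN.le.trans inf_le_right
    let f : Q4 (𝓞 k ⧸ ∏ q ∈ insert p Q, q.asIdeal ^ 2) →
        Q4 (𝓞 k ⧸ p.asIdeal ^ 2) × Q4 (𝓞 k ⧸ ∏ q ∈ Q, q.asIdeal ^ 2) := fun w =>
      (fun i => Ideal.Quotient.factor l1 (w i), fun i => Ideal.Quotient.factor l2 (w i))
    have hmaps : ∀ w ∈ SQ (insert p Q), f w ∈ (Sp p) ×ˢ (SQ Q) := by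
      rintro w ⟨v, hv, rfl⟩
      exact ⟨⟨v, hv p (Finset.mem_insert_self _ _), rfl⟩,
        ⟨v, fun q hq => hv q (Finset.mem_insert_of_mem hq), rfl⟩⟩
    have hinj : Set.InjOn f (SQ (insert p Q)) := by
      rintro _ ⟨v, -, rfl⟩ _ ⟨v', -, rfl⟩ h
      have e1 : ∀ i, Ideal.Quotient.mk (p.asIdeal ^ 2) (v i) =
          Ideal.Quotient.mk (p.asIdeal ^ 2) (v' i) := fun i =>
        congrFun (congrArg Prod.fst h) i
      have e2 : ∀ i, Ideal.Quotient.mk (∏ q ∈ Q, q.asIdeal ^ 2) (v i) =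
          Ideal.Quotient.mk (∏ q ∈ Q, q.asIdeal ^ 2) (v' i) := fun i =>
        congrFun (congrArg Prod.snd h) i
      funext i
      show Ideal.Quotient.mk _ (v i) = Ideal.Quotient.mk _ (v' i)
      rw [Ideal.Quotient.eq, hN]
      exact ⟨Ideal.Quotient.eq.1 (e1 i), Ideal.Quotient.eq.1 (e2 i)⟩
    have hle := Set.ncard_le_ncard_of_injOn f hmaps hinj (Set.toFinite _)
    rw [Set.ncard_prod] at hle
    calc ((SQ (insert p Q)).ncard : ℝ) ≤ ((Sp p).ncard : ℝ) * ((SQ Q).ncard : ℝ) := by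
          exact_mod_cast hle
      _ ≤ (np p ^ 8 * df p) * ∏ p ∈ Q, (np p ^ 8 * df p) :=
        mul_le_mul (prime_bound h5 h2 h3 p) ih (by positivity)
          (mul_nonneg (by unfold np; positivity) (df_nonneg p))
      _ = _ := (Finset.prod_insert (f := fun p => np p ^ 8 * df p) hp).symm

theorem den (h5 : Ld5Stmt) (h2 : Ld2Stmt) (h3 : Ld3Stmt) : DenStmt := by
  intro k _ _ Q
  refine ⟨SQ Q, fun v hv => ⟨v, hv, rfl⟩, ?_⟩
  have h := SQ_bound h5 h2 h3 Q
  rw [Finset.prod_mul_distrib] at h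
  have hn : (Ideal.absNorm (∏ p ∈ Q, p.asIdeal ^ 2) : ℝ) ^ 4 = ∏ p ∈ Q, np p ^ 8 := by
    rw [map_prod]
    push_cast
    rw [← Finset.prod_pow]
    refine Finset.prod_congr rfl fun p _ => ?_
    rw [map_pow]
    unfold np
    push_cast
    ring
  have hpos : (0 : ℝ) < (Ideal.absNorm (∏ p ∈ Q, p.asIdeal ^ 2) : ℝ) ^ 4 := by
    have : Ideal.absNorm (∏ p ∈ Q, p.asIdeal ^ 2) ≠ 0 := by
      rw [Ne, Ideal.absNorm_eq_zero_iff]
      exact prod_ne_bot Q
    have : 0 < Ideal.absNorm (∏ p ∈ Q, p.asIdeal ^ 2) := Nat.pos_of_ne_zero this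
    positivity
  rw [div_le_iff₀ hpos, hn, mul_comm]
  exact h

end Pool.Agent.LeoK.H11
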